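import Pool.Agent.CDep.Assembly

/-!
# The permanent needs exponential top fan-in at every constant depth
-/

set_option autoImplicit false

namespace Pool.Agent.Results.MP_381749_lc.ConstantDepth

open Finset MvPolynomial

/-- Level `0`: arbitrary polynomials `Q` in `w0` affine forms.  Level `k + 1`: arbitrary
polynomials `Q` in `w` polynomials, each of which is a sum of `S` products of `S` elements of
level `k`. -/
def Cls {σ K : Type} [CommRing K] (w0 w S : ℕ) : ℕ → Set (MvPolynomial σ K)
  | 0 => {f | ∃ (L : Fin w0 → MvPolynomial σ K) (Q : MvPolynomial (Fin w0) K),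
      (∀ i, (L i).totalDegree ≤ 1) ∧ f = aeval L Q}
  | k + 1 => {f | ∃ (F : Fin w → Fin S → Fin S → MvPolynomial σ K) (Q : MvPolynomial (Fin w) K),
      (∀ l i j, F l i j ∈ Cls w0 w S k) ∧ f = aeval (fun l => ∑ i, ∏ j, F l i j) Q}

/-- The permanent of the `n × n` matrix of variables. -/
noncomputable def perm (n : ℕ) (K : Type) [CommRing K] : MvPolynomial (Fin n × Fin n) K :=
  (Matrix.of fun i j => (X (i, j) : MvPolynomial (Fin n × Fin n) K)).permanent

theorem cls_eq {σ K : Type} [CommRing K] (w0 w S k : ℕ) :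
    (Cls w0 w S k : Set (MvPolynomial σ K)) = Pool.Agent.Helper41.CD.Cls w0 w S k := by
  induction k with
  | zero => rfl
  | succ k ih =>
    unfold Cls Pool.Agent.Helper41.CD.Cls
    rw [ih]

/-- For every `k` there is `C > 0` such that, over every field `K` (of any characteristic) with a
valuation `v`: if `perm_n` is, up to a polynomial whose coefficients have valuation less than one,
a sum of `T` products of `S` elements of level `k`, then
`n exp (-C ((log S)^(1-η) (log 2w)^η + log w0)) ≤ C log (2T)`, `η = 1 / (Fib (2k+4) - 1)`. -/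
theorem result (k : ℕ) : ∃ C : ℝ, 0 < C ∧
    ∀ (K Γ : Type) [Field K] [LinearOrderedCommGroupWithZero Γ] (v : Valuation K Γ)
      (n T S w w0 : ℕ) (f : Fin T → Fin S → MvPolynomial (Fin n × Fin n) K),
      2 ≤ S → 1 ≤ w → w ≤ S → 1 ≤ w0 → (∀ i j, f i j ∈ Cls w0 w S k) →
      (∀ m, v (coeff m ((∑ i, ∏ j, f i j) - perm n K)) < 1) →
      n * Real.exp (-(C * (Real.log S ^ (1 - 1 / ((Nat.fib (2 * k + 4) : ℝ) - 1)) *
        Real.log (2 * w) ^ (1 / ((Nat.fib (2 * k + 4) : ℝ) - 1)) + Real.log w0))) ≤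
        C * Real.log (2 * T) := by
  obtain ⟨C, hC, h⟩ := Pool.CDep.constant_depth k
  refine ⟨C, hC, ?_⟩
  intro K Γ _ _ v n T S w w0 f hS hw hwS hw0 hf hv
  refine h K Γ v n T S w w0 f hS hw hwS hw0 (fun i j => ?_) hv
  rw [← cls_eq]
  exact hf i j

end Pool.Agent.Results.MP_381749_lc.ConstantDepth
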